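import Mathlib

/-!
# Divided differences of polynomials at arbitrary (also coincident) nodes
-/

set_option autoImplicit false

open Polynomial

namespace Pool.Agent.Lib_helper42.T56

/-- the first divided difference of `x ^ n` -/
def h1 : ℕ → ℝ → ℝ → ℝ
  | 0, _, _ => 0
  | n + 1, a, b => a * h1 n a b + b ^ n

/-- the second divided difference of `x ^ n` -/
def h2 : ℕ → ℝ → ℝ → ℝ → ℝ
  | 0, _, _, _ => 0
  | n + 1, a, b, c => a * h2 n a b c + h1 n b c

/-- the third divided difference of `x ^ n` -/
def h3 : ℕ → ℝ → ℝ → ℝ → ℝ → ℝ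
  | 0, _, _, _, _ => 0
  | n + 1, a, b, c, d => a * h3 n a b c d + h2 n b c d

theorem h1_succ (n : ℕ) (a b : ℝ) : h1 (n + 1) a b = a * h1 n a b + b ^ n := rfl
theorem h2_succ (n : ℕ) (a b c : ℝ) : h2 (n + 1) a b c = a * h2 n a b c + h1 n b c := rfl
theorem h3_succ (n : ℕ) (a b c d : ℝ) : h3 (n + 1) a b c d = a * h3 n a b c d + h2 n b c d := rfl

theorem h1_mul (n : ℕ) (a b : ℝ) : (a - b) * h1 n a b = a ^ n - b ^ n := by
  induction n with
  | zero => simp [h1]
  | succ n ih => rw [h1_succ]; linear_combination a * ih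

theorem h1_swap (n : ℕ) (a b : ℝ) : h1 n a b = h1 n b a := by
  rcases eq_or_ne a b with h | h
  · rw [h]
  · have h' : a - b ≠ 0 := sub_ne_zero.2 h
    apply mul_left_cancel₀ h'
    rw [h1_mul]
    linear_combination h1_mul n b a

theorem h2_mul (n : ℕ) (a b c : ℝ) : (a - c) * h2 n a b c = h1 n a b - h1 n b c := by
  induction n with
  | zero => simp [h1, h2]
  | succ n ih => rw [h2_succ, h1_succ, h1_succ]; linear_combination a * ih + h1_mul n b c

theorem h3_mul (n : ℕ) (a b c d : ℝ) : (a - d) * h3 n a b c d = h2 n a b c - h2 n b c d := by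
  induction n with
  | zero => simp [h2, h3]
  | succ n ih => rw [h3_succ, h2_succ, h2_succ]; linear_combination a * ih + h2_mul n b c d

theorem h2_symm (n : ℕ) : ∀ a b c : ℝ, h2 n a b c = h2 n b a c ∧ h2 n a b c = h2 n a c b := by
  induction n with
  | zero => intro a b c; simp [h2]
  | succ n ih =>
    intro a b c
    constructor
    · rw [h2_succ, h2_succ, (ih b a c).1]
      have e1 : (a - b) * h2 n a b c = h1 n a c - h1 n c b := by
        rw [(ih a b c).2]; exact h2_mul n a c b
      linear_combination e1 + h1_swap n b c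
    · rw [h2_succ, h2_succ, (ih a c b).2, h1_swap n c b]

theorem h2_rot (n : ℕ) (a b c : ℝ) : h2 n a b c = h2 n b c a := by
  rw [(h2_symm n a b c).1, (h2_symm n b a c).2]

theorem h3_symm (n : ℕ) : ∀ a b c d : ℝ, h3 n a b c d = h3 n b a c d ∧ h3 n a b c d = h3 n a c b d ∧
    h3 n a b c d = h3 n a b d c := by
  induction n with
  | zero => intro a b c d; simp [h3]
  | succ n ih =>
    intro a b c d
    refine ⟨?_, ?_, ?_⟩
    · rw [h3_succ, h3_succ, (ih b a c d).1]
      have e1 : (a - b) * h3 n a b c d = h2 n a c d - h2 n c d b := by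
        rw [(ih a b c d).2.1, (ih a c b d).2.2]; exact h3_mul n a c d b
      linear_combination e1 + h2_rot n b c d
    · rw [h3_succ, h3_succ, (ih a c b d).2.1, (h2_symm n c b d).1]
    · rw [h3_succ, h3_succ, (ih a b d c).2.2, (h2_symm n b d c).2]

theorem h3_rot (n : ℕ) (a b c d : ℝ) : h3 n a b c d = h3 n b c d a := by
  rw [(h3_symm n a b c d).1, (h3_symm n b a c d).2.1, (h3_symm n b c a d).2.2]

theorem h1_self (n : ℕ) (a : ℝ) : h1 n a a = n * a ^ (n - 1) := by
  induction n with
  | zero => simp [h1]
  | succ n ih =>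
    rw [h1_succ, ih]
    rcases n with _ | n
    · simp
    · simp only [Nat.add_sub_cancel]
      push_cast
      ring

theorem h2_self (n : ℕ) (a : ℝ) : 2 * h2 n a a a = n * (n - 1) * a ^ (n - 2) := by
  induction n with
  | zero => simp [h2]
  | succ n ih =>
    rw [h2_succ, h1_self, mul_add, mul_left_comm, ih]
    rcases n with _ | _ | n
    · simp
    · simp
      norm_num
    · simp only [show n + 1 + 1 - 1 = n + 1 from rfl, show n + 1 + 1 + 1 - 2 = n + 1 from rfl]
      push_cast
      ring

theorem h3_self (n : ℕ) (a : ℝ) : 6 * h3 n a a a a = n * (n - 1) * (n - 2) * a ^ (n - 3) := by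
  induction n with
  | zero => simp [h3]
  | succ n ih =>
    rw [h3_succ, mul_add, mul_left_comm, ih]
    have h := h2_self n a
    rcases n with _ | _ | _ | n
    · simp [h2]
    · simp [h2, h1]
    · simp [h2, h1]
      norm_num
    · simp only [show n + 1 + 1 + 1 - 3 = n from rfl, show n + 1 + 1 + 1 + 1 - 3 = n + 1 from rfl,
        show n + 1 + 1 + 1 - 2 = n + 1 from rfl] at h ⊢
      push_cast at h ⊢
      linear_combination 3 * h

/-- first divided difference of a polynomial -/
noncomputable def dd1 (g : ℝ[X]) (a b : ℝ) : ℝ := g.sum fun n c₀ => c₀ * h1 n a b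

/-- second divided difference of a polynomial -/
noncomputable def dd2 (g : ℝ[X]) (a b c : ℝ) : ℝ := g.sum fun n c₀ => c₀ * h2 n a b c

/-- third divided difference of a polynomial -/
noncomputable def dd3 (g : ℝ[X]) (a b c d : ℝ) : ℝ := g.sum fun n c₀ => c₀ * h3 n a b c d

theorem dd1_mul (g : ℝ[X]) (a b : ℝ) : (a - b) * dd1 g a b = g.eval a - g.eval b := by
  rw [dd1, eval_eq_sum, eval_eq_sum]
  simp only [Polynomial.sum_def, Finset.mul_sum, ← Finset.sum_sub_distrib]
  refine Finset.sum_congr rfl fun n _ => ?_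
  linear_combination g.coeff n * h1_mul n a b

theorem dd2_mul (g : ℝ[X]) (a b c : ℝ) : (a - c) * dd2 g a b c = dd1 g a b - dd1 g b c := by
  simp only [dd1, dd2, Polynomial.sum_def, Finset.mul_sum, ← Finset.sum_sub_distrib]
  refine Finset.sum_congr rfl fun n _ => ?_
  linear_combination g.coeff n * h2_mul n a b c

theorem dd3_mul (g : ℝ[X]) (a b c d : ℝ) : (a - d) * dd3 g a b c d = dd2 g a b c - dd2 g b c d := by
  simp only [dd3, dd2, Polynomial.sum_def, Finset.mul_sum, ← Finset.sum_sub_distrib]
  refine Finset.sum_congr rfl fun n _ => ?_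
  linear_combination g.coeff n * h3_mul n a b c d

theorem dd2_rot (g : ℝ[X]) (a b c : ℝ) : dd2 g a b c = dd2 g b c a := by
  simp only [dd2, Polynomial.sum_def]
  exact Finset.sum_congr rfl fun n _ => by rw [h2_rot n a b c]

theorem dd3_rot (g : ℝ[X]) (a b c d : ℝ) : dd3 g a b c d = dd3 g b c d a := by
  simp only [dd3, Polynomial.sum_def]
  exact Finset.sum_congr rfl fun n _ => by rw [h3_rot n a b c d]

theorem dd1_self (g : ℝ[X]) (a : ℝ) : dd1 g a a = g.derivative.eval a := by
  rw [dd1, derivative_eval]
  simp only [Polynomial.sum_def]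
  refine Finset.sum_congr rfl fun n _ => ?_
  rw [h1_self]
  ring

theorem eval_deriv2 (g : ℝ[X]) (a : ℝ) :
    (derivative (derivative g)).eval a = g.sum fun n c₀ => c₀ * (n * (n - 1) * a ^ (n - 2)) := by
  induction g using Polynomial.induction_on' with
  | add p q hp hq =>
    rw [derivative_add, derivative_add, eval_add, hp, hq, Polynomial.sum_add_index]
    · intro n; simp
    · intro n x y; ring
  | monomial n c =>
    rw [derivative_monomial, derivative_monomial, eval_monomial, Polynomial.sum_monomial_index _ _ (by simp)]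
    rcases n with _ | _ | n
    · simp
    · simp
    · simp only [show n + 1 + 1 - 1 = n + 1 from rfl, show n + 1 - 1 = n from rfl, show n + 1 + 1 - 2 = n from rfl]
      push_cast
      ring

theorem eval_deriv3 (g : ℝ[X]) (a : ℝ) :
    (derivative (derivative (derivative g))).eval a =
      g.sum fun n c₀ => c₀ * (n * (n - 1) * (n - 2) * a ^ (n - 3)) := by
  induction g using Polynomial.induction_on' with
  | add p q hp hq =>
    rw [derivative_add, derivative_add, derivative_add, eval_add, hp, hq, Polynomial.sum_add_index]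
    · intro n; simp
    · intro n x y; ring
  | monomial n c =>
    rw [derivative_monomial, derivative_monomial, derivative_monomial, eval_monomial,
      Polynomial.sum_monomial_index _ _ (by simp)]
    rcases n with _ | _ | _ | n
    · simp
    · simp
    · simp
    · simp only [show n + 1 + 1 + 1 - 1 = n + 1 + 1 from rfl, show n + 1 + 1 - 1 = n + 1 from rfl,
        show n + 1 - 1 = n from rfl, show n + 1 + 1 + 1 - 3 = n from rfl]
      push_cast
      ring

theorem dd2_self (g : ℝ[X]) (a : ℝ) :
    2 * dd2 g a a a = (derivative (derivative g)).eval a := by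
  rw [eval_deriv2]
  simp only [dd2, Polynomial.sum_def, Finset.mul_sum]
  refine Finset.sum_congr rfl fun n _ => ?_
  linear_combination g.coeff n * h2_self n a

theorem dd3_self (g : ℝ[X]) (a : ℝ) :
    6 * dd3 g a a a a = (derivative (derivative (derivative g))).eval a := by
  rw [eval_deriv3]
  simp only [dd3, Polynomial.sum_def, Finset.mul_sum]
  refine Finset.sum_congr rfl fun n _ => ?_
  linear_combination g.coeff n * h3_self n a

end Pool.Agent.Lib_helper42.T56
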