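import Pool.Agent.Lib_helper42.T56.Sum
import Pool.Agent.Lib_helper12.G56.Hinge
import Pool.Agent.Lib_helper30.TN.Taylor

/-!
# Positivity of the second and third order traces
-/

set_option autoImplicit false

open Polynomial Matrix
open scoped ComplexOrder MatrixOrder

namespace Pool.Agent.Lib_helper42.T56

theorem q3_eq12 (a b c : ℝ) : q3 a b c = Pool.Agent.Lib_helper12.G56.q3 a b c := rfl

theorem q4_eq12 (a b c d : ℝ) : q4 a b c d = Pool.Agent.Lib_helper12.G56.q4 a b c d := by
  unfold q4 Pool.Agent.Lib_helper12.G56.q4 q22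
  by_cases ha : 0 < a <;> by_cases hb : 0 < b <;> by_cases hc : 0 < c <;> by_cases hd : 0 < d <;>
    simp only [ha, hb, hc, hd, if_true, if_false] <;> ring1

variable {ι : Type} [Fintype ι] [DecidableEq ι]

theorem pos2 : Pool.Agent.Lib_helper30.TN.Pos2 ι := by
  intro g x R N hN hx hg
  refine dd2_trace_nonneg hN (fun y hy => ?_) hx g hg
  simp only [q3_eq12]
  exact Pool.Agent.Lib_helper12.G56.hinge3 y hy N hN

theorem pos3 : Pool.Agent.Lib_helper30.TN.Pos3 ι := by
  intro g x R N hN hx hg
  refine dd3_trace_nonneg hN (fun y hy => ?_) hx g hg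
  simp only [q4_eq12]
  exact Pool.Agent.Lib_helper12.G56.hinge4 y hy N hN

end Pool.Agent.Lib_helper42.T56
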