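import Pool.Agent.Lib_helper42.T56.Dd

/-!
# Peano kernels of the second and third divided differences, coincident nodes included
-/

set_option autoImplicit false

open Polynomial MeasureTheory

namespace Pool.Agent.Lib_helper42.T56

/-- `x_+` -/
noncomputable def s1 (a : ℝ) : ℝ := if 0 < a then a else 0

/-- `x_+ ^ 2` -/
noncomputable def s0 (a : ℝ) : ℝ := if 0 < a then a ^ 2 else 0

/-- first divided difference of `x_+` -/
noncomputable def v1 (a b : ℝ) : ℝ :=
  if 0 < a then (if 0 < b then 1 else a / (a - b)) else (if 0 < b then b / (b - a) else 0)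

/-- `x_+ [a, b, c]` for non-zero nodes -/
noncomputable def q3 (a b c : ℝ) : ℝ :=
  if 0 < a then
    if 0 < b then
      if 0 < c then 0 else (-c) / ((a - c) * (b - c))
    else
      if 0 < c then (-b) / ((a - b) * (c - b)) else a / ((a - b) * (a - c))
  else
    if 0 < b then
      if 0 < c then (-a) / ((b - a) * (c - a)) else b / ((b - a) * (b - c))
    else
      if 0 < c then c / ((c - a) * (c - b)) else 0

/-- first divided difference of `x_+ ^ 2` -/
noncomputable def w1 (a b : ℝ) : ℝ :=
  if 0 < a then (if 0 < b then a + b else a ^ 2 / (a - b)) else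
    (if 0 < b then b ^ 2 / (b - a) else 0)

/-- second divided difference of `x_+ ^ 2` -/
noncomputable def w2 (a b c : ℝ) : ℝ :=
  if 0 < a then
    if 0 < b then
      if 0 < c then 1 else (a * b - a * c - b * c) / ((a - c) * (b - c))
    else
      if 0 < c then (a * c - a * b - c * b) / ((a - b) * (c - b)) else a ^ 2 / ((a - b) * (a - c))
  else
    if 0 < b then
      if 0 < c then (b * c - b * a - c * a) / ((b - a) * (c - a)) else b ^ 2 / ((b - a) * (b - c))
    else
      if 0 < c then c ^ 2 / ((c - a) * (c - b)) else 0

/-- two positive nodes `x, y`, two negative nodes `-s, -t` -/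
noncomputable def q22 (x y s t : ℝ) : ℝ :=
  (x * s * (y + t) + y * t * (x + s)) / ((x + s) * (x + t) * (y + s) * (y + t))

/-- `x_+ ^ 2 [a, b, c, d]` for non-zero nodes -/
noncomputable def q4 (a b c d : ℝ) : ℝ :=
  if 0 < a then
    if 0 < b then
      if 0 < c then
        if 0 < d then 0 else d ^ 2 / ((a - d) * (b - d) * (c - d))
      else
        if 0 < d then c ^ 2 / ((a - c) * (b - c) * (d - c)) else q22 a b (-c) (-d)
    else
      if 0 < c then
        if 0 < d then b ^ 2 / ((a - b) * (c - b) * (d - b)) else q22 a c (-b) (-d)
      else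
        if 0 < d then q22 a d (-b) (-c) else a ^ 2 / ((a - b) * (a - c) * (a - d))
  else
    if 0 < b then
      if 0 < c then
        if 0 < d then a ^ 2 / ((b - a) * (c - a) * (d - a)) else q22 b c (-a) (-d)
      else
        if 0 < d then q22 b d (-a) (-c) else b ^ 2 / ((b - a) * (b - c) * (b - d))
    else
      if 0 < c then
        if 0 < d then q22 c d (-a) (-b) else c ^ 2 / ((c - a) * (c - b) * (c - d))
      else
        if 0 < d then d ^ 2 / ((d - a) * (d - b) * (d - c)) else 0

theorem v1_mul (a b : ℝ) : (a - b) * v1 a b = s1 a - s1 b := by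
  unfold v1 s1
  split_ifs with ha hb hb
  · ring
  · have : a - b ≠ 0 := by linarith
    field_simp
    ring
  · have : b - a ≠ 0 := by linarith
    field_simp
    ring
  · ring

theorem w1_mul (a b : ℝ) : (a - b) * w1 a b = s0 a - s0 b := by
  unfold w1 s0
  split_ifs with ha hb hb
  · ring
  · have : a - b ≠ 0 := by linarith
    field_simp
    ring
  · have : b - a ≠ 0 := by linarith
    field_simp
    ring
  · ring

theorem sub_ne' {a b : ℝ} (h : 0 < a) (h' : ¬ 0 < b) : a - b ≠ 0 := by
  have : 0 < a - b := by linarith
  exact this.ne'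

theorem q3_mul (a b c : ℝ) : (a - c) * q3 a b c = v1 a b - v1 b c := by
  unfold q3 v1
  by_cases ha : 0 < a <;> by_cases hb : 0 < b <;> by_cases hc : 0 < c <;>
    simp only [ha, hb, hc, if_true, if_false]
  · ring1
  · have e1 := sub_ne' ha hc
    have e2 := sub_ne' hb hc
    field_simp
    ring1
  · have e1 := sub_ne' ha hb
    have e2 := sub_ne' hc hb
    field_simp
    ring1
  · have e1 := sub_ne' ha hb
    have e2 := sub_ne' ha hc
    field_simp
    ring1
  · have e1 := sub_ne' hb ha
    have e2 := sub_ne' hc ha
    field_simp
    ring1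
  · have e1 := sub_ne' hb ha
    have e2 := sub_ne' hb hc
    field_simp
    ring1
  · have e1 := sub_ne' hc ha
    have e2 := sub_ne' hc hb
    field_simp
    ring1
  · ring1

theorem w2_mul (a b c : ℝ) : (a - c) * w2 a b c = w1 a b - w1 b c := by
  unfold w2 w1
  by_cases ha : 0 < a <;> by_cases hb : 0 < b <;> by_cases hc : 0 < c <;>
    simp only [ha, hb, hc, if_true, if_false]
  · ring1
  · have e1 := sub_ne' ha hc
    have e2 := sub_ne' hb hc
    field_simp
    ring1
  · have e1 := sub_ne' ha hb
    have e2 := sub_ne' hc hb
    field_simp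
    ring1
  · have e1 := sub_ne' ha hb
    have e2 := sub_ne' ha hc
    field_simp
    ring1
  · have e1 := sub_ne' hb ha
    have e2 := sub_ne' hc ha
    field_simp
    ring1
  · have e1 := sub_ne' hb ha
    have e2 := sub_ne' hb hc
    field_simp
    ring1
  · have e1 := sub_ne' hc ha
    have e2 := sub_ne' hc hb
    field_simp
    ring1
  · ring1

theorem q4_mul (a b c d : ℝ) : (a - d) * q4 a b c d = w2 a b c - w2 b c d := by
  unfold q4 w2 q22
  by_cases ha : 0 < a <;> by_cases hb : 0 < b <;> by_cases hc : 0 < c <;> by_cases hd : 0 < d <;>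
    simp only [ha, hb, hc, hd, if_true, if_false, ← sub_eq_add_neg]
  · ring1
  · have e1 := sub_ne' ha hd
    have e2 := sub_ne' hb hd
    have e3 := sub_ne' hc hd
    field_simp
    ring1
  · have e1 := sub_ne' ha hc
    have e2 := sub_ne' hb hc
    have e3 := sub_ne' hd hc
    field_simp
    ring1
  · have e1 := sub_ne' ha hc
    have e2 := sub_ne' hb hc
    have e3 := sub_ne' ha hd
    have e4 := sub_ne' hb hd
    field_simp
    ring1
  · have e1 := sub_ne' ha hb
    have e2 := sub_ne' hc hb
    have e3 := sub_ne' hd hb
    field_simp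
    ring1
  · have e1 := sub_ne' ha hb
    have e2 := sub_ne' hc hb
    have e3 := sub_ne' ha hd
    have e4 := sub_ne' hc hd
    field_simp
    ring1
  · have e1 := sub_ne' ha hb
    have e2 := sub_ne' ha hc
    have e3 := sub_ne' hd hb
    have e4 := sub_ne' hd hc
    field_simp
    ring1
  · have e1 := sub_ne' ha hb
    have e2 := sub_ne' ha hc
    have e3 := sub_ne' ha hd
    field_simp
    ring1
  · have e1 := sub_ne' hb ha
    have e2 := sub_ne' hc ha
    have e3 := sub_ne' hd ha
    field_simp
    ring1
  · have e1 := sub_ne' hb ha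
    have e2 := sub_ne' hc ha
    have e3 := sub_ne' hb hd
    have e4 := sub_ne' hc hd
    field_simp
    ring1
  · have e1 := sub_ne' hb ha
    have e2 := sub_ne' hd ha
    have e3 := sub_ne' hb hc
    have e4 := sub_ne' hd hc
    field_simp
    ring1
  · have e1 := sub_ne' hb ha
    have e2 := sub_ne' hb hc
    have e3 := sub_ne' hb hd
    field_simp
    ring1
  · have e1 := sub_ne' hc ha
    have e2 := sub_ne' hc hb
    have e3 := sub_ne' hd ha
    have e4 := sub_ne' hd hb
    field_simp
    ring1
  · have e1 := sub_ne' hc ha
    have e2 := sub_ne' hc hb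
    have e3 := sub_ne' hc hd
    field_simp
    ring1
  · have e1 := sub_ne' hd ha
    have e2 := sub_ne' hd hb
    have e3 := sub_ne' hd hc
    field_simp
    ring1
  · ring1

theorem q3_rot (a b c : ℝ) : q3 a b c = q3 b c a := by
  unfold q3
  by_cases ha : 0 < a <;> by_cases hb : 0 < b <;> by_cases hc : 0 < c <;>
    simp only [ha, hb, hc, if_true, if_false] <;> ring1

theorem w2_rot (a b c : ℝ) : w2 a b c = w2 b c a := by
  unfold w2
  by_cases ha : 0 < a <;> by_cases hb : 0 < b <;> by_cases hc : 0 < c <;>
    simp only [ha, hb, hc, if_true, if_false] <;> ring1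

theorem q4_rot (a b c d : ℝ) : q4 a b c d = q4 b c d a := by
  unfold q4 q22
  by_cases ha : 0 < a <;> by_cases hb : 0 < b <;> by_cases hc : 0 < c <;> by_cases hd : 0 < d <;>
    simp only [ha, hb, hc, hd, if_true, if_false] <;> ring1

theorem q3_self (a : ℝ) : q3 a a a = 0 := by
  unfold q3
  by_cases ha : 0 < a <;> simp [ha]

theorem q4_self (a : ℝ) : q4 a a a a = 0 := by
  unfold q4
  by_cases ha : 0 < a <;> simp [ha]

theorem q3_nonneg (a b c : ℝ) : 0 ≤ q3 a b c := by
  unfold q3
  by_cases ha : 0 < a <;> by_cases hb : 0 < b <;> by_cases hc : 0 < c <;>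
    simp only [ha, hb, hc, if_true, if_false]
  · exact le_rfl
  · have : 0 < a - c := by linarith
    have : 0 < b - c := by linarith
    have : 0 ≤ -c := by linarith
    positivity
  · have : 0 < a - b := by linarith
    have : 0 < c - b := by linarith
    have : 0 ≤ -b := by linarith
    positivity
  · have : 0 < a - b := by linarith
    have : 0 < a - c := by linarith
    positivity
  · have : 0 < b - a := by linarith
    have : 0 < c - a := by linarith
    have : 0 ≤ -a := by linarith
    positivity
  · have : 0 < b - a := by linarith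
    have : 0 < b - c := by linarith
    positivity
  · have : 0 < c - a := by linarith
    have : 0 < c - b := by linarith
    positivity
  · exact le_rfl

theorem q22_nonneg {x y s t : ℝ} (hx : 0 < x) (hy : 0 < y) (hs : 0 ≤ s) (ht : 0 ≤ t) :
    0 ≤ q22 x y s t := by
  unfold q22
  positivity

theorem q4_nonneg (a b c d : ℝ) : 0 ≤ q4 a b c d := by
  unfold q4
  by_cases ha : 0 < a <;> by_cases hb : 0 < b <;> by_cases hc : 0 < c <;> by_cases hd : 0 < d <;>
    simp only [ha, hb, hc, hd, if_true, if_false]
  · exact le_rfl
  · have : 0 < a - d := by linarith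
    have : 0 < b - d := by linarith
    have : 0 < c - d := by linarith
    positivity
  · have : 0 < a - c := by linarith
    have : 0 < b - c := by linarith
    have : 0 < d - c := by linarith
    positivity
  · exact q22_nonneg ha hb (by linarith) (by linarith)
  · have : 0 < a - b := by linarith
    have : 0 < c - b := by linarith
    have : 0 < d - b := by linarith
    positivity
  · exact q22_nonneg ha hc (by linarith) (by linarith)
  · exact q22_nonneg ha hd (by linarith) (by linarith)
  · have : 0 < a - b := by linarith
    have : 0 < a - c := by linarith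
    have : 0 < a - d := by linarith
    positivity
  · have : 0 < b - a := by linarith
    have : 0 < c - a := by linarith
    have : 0 < d - a := by linarith
    positivity
  · exact q22_nonneg hb hc (by linarith) (by linarith)
  · exact q22_nonneg hb hd (by linarith) (by linarith)
  · have : 0 < b - a := by linarith
    have : 0 < b - c := by linarith
    have : 0 < b - d := by linarith
    positivity
  · exact q22_nonneg hc hd (by linarith) (by linarith)
  · have : 0 < c - a := by linarith
    have : 0 < c - b := by linarith
    have : 0 < c - d := by linarith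
    positivity
  · have : 0 < d - a := by linarith
    have : 0 < d - b := by linarith
    have : 0 < d - c := by linarith
    positivity
  · exact le_rfl

end Pool.Agent.Lib_helper42.T56
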