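import Pool.Agent.Lib_helper42.T56.Ker

/-!
# Peano's formula for the second and third divided differences of a polynomial
-/

set_option autoImplicit false

open Polynomial MeasureTheory

namespace Pool.Agent.Lib_helper42.T56

theorem cut {R x : ℝ} (hx : x ∈ Set.Icc (-R) R) {φ k : ℝ → ℝ} (hφ : Continuous φ)
    (h1 : ∀ r, r < x → k r = φ r) (h2 : ∀ r, x ≤ r → k r = 0) :
    IntervalIntegrable k volume (-R) R ∧ ∫ r in (-R)..R, k r = ∫ r in (-R)..x, φ r := by
  have hR : -R ≤ R := hx.1.trans hx.2
  have ek : k = (Set.Iio x).indicator φ := by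
    funext r
    by_cases h : r < x
    · rw [Set.indicator_of_mem (show r ∈ Set.Iio x from h), h1 r h]
    · rw [Set.indicator_of_notMem (show r ∉ Set.Iio x from h), h2 r (not_lt.1 h)]
  have hint : IntegrableOn φ (Set.Ioc (-R) R) volume := (hφ.intervalIntegrable (-R) R).1
  constructor
  · rw [intervalIntegrable_iff_integrableOn_Ioc_of_le hR, ek]
    exact hint.indicator measurableSet_Iio
  · have es : Set.Ioc (-R) R ∩ Set.Iio x = Set.Ioo (-R) x := by
      ext r
      simp only [Set.mem_inter_iff, Set.mem_Ioc, Set.mem_Iio, Set.mem_Ioo]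
      constructor
      · rintro ⟨⟨h3, _⟩, h5⟩
        exact ⟨h3, h5⟩
      · rintro ⟨h3, h5⟩
        exact ⟨⟨h3, h5.le.trans hx.2⟩, h5⟩
    rw [intervalIntegral.integral_of_le hR, intervalIntegral.integral_of_le hx.1, ek,
      setIntegral_indicator measurableSet_Iio, es, integral_Ioc_eq_integral_Ioo]

theorem tay2 (g : ℝ[X]) (y x : ℝ) :
    ∫ r in y..x, (derivative (derivative (derivative g))).eval r * (x - r) ^ 2 =
      2 * (g.eval x - g.eval y - (derivative g).eval y * (x - y)) -
        (derivative (derivative g)).eval y * (x - y) ^ 2 := by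
  have hd : ∀ r ∈ Set.uIcc y x, HasDerivAt (fun r => 2 * g.eval r + 2 * (derivative g).eval r * (x - r) +
      (derivative (derivative g)).eval r * (x - r) ^ 2)
      ((derivative (derivative (derivative g))).eval r * (x - r) ^ 2) r := by
    intro r _
    have e0 := g.hasDerivAt r
    have e1 := (derivative g).hasDerivAt r
    have e2 := (derivative (derivative g)).hasDerivAt r
    have e3 : HasDerivAt (fun r => x - r) (-1) r := by
      simpa using (hasDerivAt_id r).const_sub x
    have e4 := ((e0.const_mul 2).add ((e1.const_mul 2).mul e3)).add (e2.mul (e3.pow 2))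
    refine (e4.congr_deriv ?_)
    simp
    ring
  rw [intervalIntegral.integral_eq_sub_of_hasDerivAt hd]
  · ring
  · apply Continuous.intervalIntegrable
    fun_prop

theorem tay1 (g : ℝ[X]) (y x : ℝ) :
    ∫ r in y..x, (derivative (derivative g)).eval r * (x - r) =
      g.eval x - g.eval y - (derivative g).eval y * (x - y) := by
  have hd : ∀ r ∈ Set.uIcc y x, HasDerivAt (fun r => g.eval r + (derivative g).eval r * (x - r))
      ((derivative (derivative g)).eval r * (x - r)) r := by
    intro r _
    have e0 := g.hasDerivAt r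
    have e1 := (derivative g).hasDerivAt r
    have e3 : HasDerivAt (fun r => x - r) (-1) r := by
      simpa using (hasDerivAt_id r).const_sub x
    have e4 := e0.add (e1.mul e3)
    refine (e4.congr_deriv ?_)
    simp
  rw [intervalIntegral.integral_eq_sub_of_hasDerivAt hd]
  · ring
  · apply Continuous.intervalIntegrable
    fun_prop

theorem tay0 (g : ℝ[X]) (y x : ℝ) :
    ∫ r in y..x, (derivative g).eval r = g.eval x - g.eval y := by
  rw [intervalIntegral.integral_eq_sub_of_hasDerivAt (fun r _ => g.hasDerivAt r)]
  apply Continuous.intervalIntegrable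
  fun_prop

/-! ## The kernel of `x_+` -/

theorem p0s (g : ℝ[X]) {R x : ℝ} (hx : x ∈ Set.Icc (-R) R) :
    IntervalIntegrable (fun r => (derivative (derivative g)).eval r * s1 (x - r)) volume (-R) R ∧
    g.eval x = g.eval (-R) + (derivative g).eval (-R) * (x + R) +
      ∫ r in (-R)..R, (derivative (derivative g)).eval r * s1 (x - r) := by
  have h := cut hx (φ := fun r => (derivative (derivative g)).eval r * (x - r))
    (k := fun r => (derivative (derivative g)).eval r * s1 (x - r)) (by fun_prop)
    (fun r hr => by simp [s1, hr]) (fun r hr => by simp [s1, hr])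
  refine ⟨h.1, ?_⟩
  rw [h.2, tay1]
  ring

theorem p1s (g : ℝ[X]) {R a b : ℝ} (ha : a ∈ Set.Icc (-R) R) (hb : b ∈ Set.Icc (-R) R) :
    IntervalIntegrable (fun r => (derivative (derivative g)).eval r * v1 (a - r) (b - r))
      volume (-R) R ∧
    dd1 g a b = (derivative g).eval (-R) +
      ∫ r in (-R)..R, (derivative (derivative g)).eval r * v1 (a - r) (b - r) := by
  rcases eq_or_ne a b with hab | hab
  · subst hab
    have h := cut ha (φ := fun r => (derivative (derivative g)).eval r)
      (k := fun r => (derivative (derivative g)).eval r * v1 (a - r) (a - r)) (by fun_prop)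
      (fun r hr => by simp [v1, hr]) (fun r hr => by simp [v1, hr])
    refine ⟨h.1, ?_⟩
    rw [h.2, tay0, dd1_self]
    ring
  · have h0 : a - b ≠ 0 := sub_ne_zero.2 hab
    obtain ⟨i1, e1⟩ := p0s g ha
    obtain ⟨i2, e2⟩ := p0s g hb
    have ek : (fun r => (derivative (derivative g)).eval r * v1 (a - r) (b - r)) = fun r =>
        (a - b)⁻¹ * ((derivative (derivative g)).eval r * s1 (a - r) -
          (derivative (derivative g)).eval r * s1 (b - r)) := by
      funext r
      have h := v1_mul (a - r) (b - r)
      rw [sub_sub_sub_cancel_right] at h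
      rw [← mul_sub, ← h]
      field_simp
    rw [ek]
    refine ⟨(i1.sub i2).const_mul _, ?_⟩
    rw [intervalIntegral.integral_const_mul, intervalIntegral.integral_sub i1 i2]
    have h := dd1_mul g a b
    rw [e1, e2] at h
    apply mul_left_cancel₀ h0
    rw [h]
    field_simp
    ring

theorem p2s_aux (g : ℝ[X]) {R a b c : ℝ} (ha : a ∈ Set.Icc (-R) R) (hb : b ∈ Set.Icc (-R) R)
    (hc : c ∈ Set.Icc (-R) R) (hac : a ≠ c) :
    IntervalIntegrable (fun r => (derivative (derivative g)).eval r * q3 (a - r) (b - r) (c - r))
      volume (-R) R ∧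
    dd2 g a b c =
      ∫ r in (-R)..R, (derivative (derivative g)).eval r * q3 (a - r) (b - r) (c - r) := by
  have h0 : a - c ≠ 0 := sub_ne_zero.2 hac
  obtain ⟨i1, e1⟩ := p1s g ha hb
  obtain ⟨i2, e2⟩ := p1s g hb hc
  have ek : (fun r => (derivative (derivative g)).eval r * q3 (a - r) (b - r) (c - r)) = fun r =>
      (a - c)⁻¹ * ((derivative (derivative g)).eval r * v1 (a - r) (b - r) -
        (derivative (derivative g)).eval r * v1 (b - r) (c - r)) := by
    funext r
    have h := q3_mul (a - r) (b - r) (c - r)
    rw [sub_sub_sub_cancel_right] at h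
    rw [← mul_sub, ← h]
    field_simp
  rw [ek]
  refine ⟨(i1.sub i2).const_mul _, ?_⟩
  rw [intervalIntegral.integral_const_mul, intervalIntegral.integral_sub i1 i2]
  have h := dd2_mul g a b c
  rw [e1, e2] at h
  apply mul_left_cancel₀ h0
  rw [h]
  field_simp
  ring

theorem peano3 (g : ℝ[X]) {R a b c : ℝ} (ha : a ∈ Set.Icc (-R) R) (hb : b ∈ Set.Icc (-R) R)
    (hc : c ∈ Set.Icc (-R) R) :
    IntervalIntegrable (fun r => (derivative (derivative g)).eval r * q3 (a - r) (b - r) (c - r))
      volume (-R) R ∧
    dd2 g a b c =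
      (∫ r in (-R)..R, (derivative (derivative g)).eval r * q3 (a - r) (b - r) (c - r)) +
        if a = b ∧ b = c then (derivative (derivative g)).eval a / 2 else 0 := by
  by_cases h : a = b ∧ b = c
  · obtain ⟨rfl, rfl⟩ := h
    simp only [q3_self, mul_zero, intervalIntegral.integral_zero, and_self, if_true]
    refine ⟨intervalIntegrable_const, ?_⟩
    linarith [dd2_self g a]
  · rw [if_neg h, add_zero]
    by_cases hac : a = c
    · have hab : b ≠ a := by
        rintro rfl
        exact h ⟨rfl, hac⟩
      have k := p2s_aux g hb hc ha hab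
      simp only [q3_rot (a - _) (b - _) (c - _), dd2_rot g a b c]
      exact k
    · exact p2s_aux g ha hb hc hac

/-! ## The kernel of `x_+ ^ 2` -/

theorem p0w (g : ℝ[X]) {R x : ℝ} (hx : x ∈ Set.Icc (-R) R) :
    IntervalIntegrable (fun r => (derivative (derivative (derivative g))).eval r * s0 (x - r))
      volume (-R) R ∧
    g.eval x = g.eval (-R) + (derivative g).eval (-R) * (x + R) +
      (1 / 2) * (derivative (derivative g)).eval (-R) * (x + R) ^ 2 +
      (1 / 2) * ∫ r in (-R)..R, (derivative (derivative (derivative g))).eval r * s0 (x - r) := by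
  have h := cut hx (φ := fun r => (derivative (derivative (derivative g))).eval r * (x - r) ^ 2)
    (k := fun r => (derivative (derivative (derivative g))).eval r * s0 (x - r)) (by fun_prop)
    (fun r hr => by simp [s0, hr]) (fun r hr => by simp [s0, hr])
  refine ⟨h.1, ?_⟩
  rw [h.2, tay2]
  ring

theorem p1w (g : ℝ[X]) {R a b : ℝ} (ha : a ∈ Set.Icc (-R) R) (hb : b ∈ Set.Icc (-R) R) :
    IntervalIntegrable (fun r => (derivative (derivative (derivative g))).eval r *
      w1 (a - r) (b - r)) volume (-R) R ∧
    dd1 g a b = (derivative g).eval (-R) +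
      (1 / 2) * (derivative (derivative g)).eval (-R) * (a + b + 2 * R) +
      (1 / 2) * ∫ r in (-R)..R, (derivative (derivative (derivative g))).eval r *
        w1 (a - r) (b - r) := by
  rcases eq_or_ne a b with hab | hab
  · subst hab
    have h := cut ha (φ := fun r => 2 * ((derivative (derivative (derivative g))).eval r * (a - r)))
      (k := fun r => (derivative (derivative (derivative g))).eval r * w1 (a - r) (a - r))
      (by fun_prop)
      (fun r hr => by simp [w1, hr]; ring) (fun r hr => by simp [w1, hr])
    refine ⟨h.1, ?_⟩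
    rw [h.2, intervalIntegral.integral_const_mul, tay1, dd1_self]
    ring
  · have h0 : a - b ≠ 0 := sub_ne_zero.2 hab
    obtain ⟨i1, e1⟩ := p0w g ha
    obtain ⟨i2, e2⟩ := p0w g hb
    have ek : (fun r => (derivative (derivative (derivative g))).eval r * w1 (a - r) (b - r)) =
        fun r => (a - b)⁻¹ * ((derivative (derivative (derivative g))).eval r * s0 (a - r) -
          (derivative (derivative (derivative g))).eval r * s0 (b - r)) := by
      funext r
      have h := w1_mul (a - r) (b - r)
      rw [sub_sub_sub_cancel_right] at h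
      rw [← mul_sub, ← h]
      field_simp
    rw [ek]
    refine ⟨(i1.sub i2).const_mul _, ?_⟩
    rw [intervalIntegral.integral_const_mul, intervalIntegral.integral_sub i1 i2]
    have h := dd1_mul g a b
    rw [e1, e2] at h
    apply mul_left_cancel₀ h0
    rw [h]
    field_simp
    ring

theorem p2w_aux (g : ℝ[X]) {R a b c : ℝ} (ha : a ∈ Set.Icc (-R) R) (hb : b ∈ Set.Icc (-R) R)
    (hc : c ∈ Set.Icc (-R) R) (hac : a ≠ c) :
    IntervalIntegrable (fun r => (derivative (derivative (derivative g))).eval r *
      w2 (a - r) (b - r) (c - r)) volume (-R) R ∧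
    dd2 g a b c = (1 / 2) * (derivative (derivative g)).eval (-R) +
      (1 / 2) * ∫ r in (-R)..R, (derivative (derivative (derivative g))).eval r *
        w2 (a - r) (b - r) (c - r) := by
  have h0 : a - c ≠ 0 := sub_ne_zero.2 hac
  obtain ⟨i1, e1⟩ := p1w g ha hb
  obtain ⟨i2, e2⟩ := p1w g hb hc
  have ek : (fun r => (derivative (derivative (derivative g))).eval r *
      w2 (a - r) (b - r) (c - r)) = fun r =>
      (a - c)⁻¹ * ((derivative (derivative (derivative g))).eval r * w1 (a - r) (b - r) -
        (derivative (derivative (derivative g))).eval r * w1 (b - r) (c - r)) := by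
    funext r
    have h := w2_mul (a - r) (b - r) (c - r)
    rw [sub_sub_sub_cancel_right] at h
    rw [← mul_sub, ← h]
    field_simp
  rw [ek]
  refine ⟨(i1.sub i2).const_mul _, ?_⟩
  rw [intervalIntegral.integral_const_mul, intervalIntegral.integral_sub i1 i2]
  have h := dd2_mul g a b c
  rw [e1, e2] at h
  apply mul_left_cancel₀ h0
  rw [h]
  field_simp
  ring

theorem p2w (g : ℝ[X]) {R a b c : ℝ} (ha : a ∈ Set.Icc (-R) R) (hb : b ∈ Set.Icc (-R) R)
    (hc : c ∈ Set.Icc (-R) R) :
    IntervalIntegrable (fun r => (derivative (derivative (derivative g))).eval r *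
      w2 (a - r) (b - r) (c - r)) volume (-R) R ∧
    dd2 g a b c = (1 / 2) * (derivative (derivative g)).eval (-R) +
      (1 / 2) * ∫ r in (-R)..R, (derivative (derivative (derivative g))).eval r *
        w2 (a - r) (b - r) (c - r) := by
  by_cases hac : a = c
  · by_cases hab : b = a
    · subst hac
      subst hab
      have h := cut ha (φ := fun r => (derivative (derivative (derivative g))).eval r)
        (k := fun r => (derivative (derivative (derivative g))).eval r *
          w2 (b - r) (b - r) (b - r)) (by fun_prop)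
        (fun r hr => by simp [w2, hr]) (fun r hr => by simp [w2, hr])
      refine ⟨h.1, ?_⟩
      rw [h.2, tay0]
      linarith [dd2_self g b]
    · have k := p2w_aux g hb hc ha hab
      simp only [w2_rot (a - _) (b - _) (c - _), dd2_rot g a b c]
      exact k
  · exact p2w_aux g ha hb hc hac

theorem p3w_aux (g : ℝ[X]) {R a b c d : ℝ} (ha : a ∈ Set.Icc (-R) R) (hb : b ∈ Set.Icc (-R) R)
    (hc : c ∈ Set.Icc (-R) R) (hd : d ∈ Set.Icc (-R) R) (had : a ≠ d) :
    IntervalIntegrable (fun r => (derivative (derivative (derivative g))).eval r *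
      q4 (a - r) (b - r) (c - r) (d - r)) volume (-R) R ∧
    dd3 g a b c d = (1 / 2) * ∫ r in (-R)..R, (derivative (derivative (derivative g))).eval r *
        q4 (a - r) (b - r) (c - r) (d - r) := by
  have h0 : a - d ≠ 0 := sub_ne_zero.2 had
  obtain ⟨i1, e1⟩ := p2w g ha hb hc
  obtain ⟨i2, e2⟩ := p2w g hb hc hd
  have ek : (fun r => (derivative (derivative (derivative g))).eval r *
      q4 (a - r) (b - r) (c - r) (d - r)) = fun r =>
      (a - d)⁻¹ * ((derivative (derivative (derivative g))).eval r * w2 (a - r) (b - r) (c - r) -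
        (derivative (derivative (derivative g))).eval r * w2 (b - r) (c - r) (d - r)) := by
    funext r
    have h := q4_mul (a - r) (b - r) (c - r) (d - r)
    rw [sub_sub_sub_cancel_right] at h
    rw [← mul_sub, ← h]
    field_simp
  rw [ek]
  refine ⟨(i1.sub i2).const_mul _, ?_⟩
  rw [intervalIntegral.integral_const_mul, intervalIntegral.integral_sub i1 i2]
  have h := dd3_mul g a b c d
  rw [e1, e2] at h
  apply mul_left_cancel₀ h0
  rw [h]
  field_simp
  ring

theorem peano4 (g : ℝ[X]) {R a b c d : ℝ} (ha : a ∈ Set.Icc (-R) R) (hb : b ∈ Set.Icc (-R) R)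
    (hc : c ∈ Set.Icc (-R) R) (hd : d ∈ Set.Icc (-R) R) :
    IntervalIntegrable (fun r => (derivative (derivative (derivative g))).eval r *
      q4 (a - r) (b - r) (c - r) (d - r)) volume (-R) R ∧
    dd3 g a b c d = (1 / 2) * (∫ r in (-R)..R, (derivative (derivative (derivative g))).eval r *
        q4 (a - r) (b - r) (c - r) (d - r)) +
        if a = b ∧ b = c ∧ c = d then (derivative (derivative (derivative g))).eval a / 6 else 0 := by
  by_cases h : a = b ∧ b = c ∧ c = d
  · obtain ⟨rfl, rfl, rfl⟩ := h
    simp only [q4_self, mul_zero, intervalIntegral.integral_zero, and_self, if_true]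
    refine ⟨intervalIntegrable_const, ?_⟩
    linarith [dd3_self g a]
  · rw [if_neg h, add_zero]
    by_cases had : a = d
    · by_cases hba : b = a
      · have hcb : c ≠ b := by
          rintro rfl
          exact h ⟨hba.symm, rfl, hba.trans had⟩
        have k := p3w_aux g hc hd ha hb hcb
        simp only [q4_rot (a - _) (b - _) (c - _) (d - _), dd3_rot g a b c d,
          q4_rot (b - _) (c - _) (d - _) (a - _), dd3_rot g b c d a]
        exact k
      · have k := p3w_aux g hb hc hd ha hba
        simp only [q4_rot (a - _) (b - _) (c - _) (d - _), dd3_rot g a b c d]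
        exact k
    · exact p3w_aux g ha hb hc hd had

end Pool.Agent.Lib_helper42.T56
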