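import Pool.Agent.Lib_helper42.T56.Pea

/-!
# Positivity of the second and third order traces
-/

set_option autoImplicit false

open Polynomial MeasureTheory Matrix
open scoped ComplexOrder MatrixOrder

namespace Pool.Agent.Lib_helper42.T56

/-- a finite combination of Peano integrals with an almost everywhere nonnegative kernel -/
theorem fin_int {T : Type} [Fintype T] {R : ℝ} (hR : -R ≤ R) (S : Set ℝ) (hS : S.Finite)
    (cf : T → ℝ) (h : ℝ → ℝ) (hh : ∀ r ∈ Set.Icc (-R) R, 0 ≤ h r) (k : T → ℝ → ℝ)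
    (hi : ∀ t, IntervalIntegrable (fun r => h r * k t r) volume (-R) R)
    (hk : ∀ r, r ∉ S → 0 ≤ ∑ t, cf t * k t r) :
    0 ≤ ∑ t, cf t * ∫ r in (-R)..R, h r * k t r := by
  have e1 : ∑ t, cf t * ∫ r in (-R)..R, h r * k t r =
      ∫ r in (-R)..R, ∑ t, cf t * (h r * k t r) := by
    rw [intervalIntegral.integral_finsetSum]
    · exact Finset.sum_congr rfl fun t _ => (intervalIntegral.integral_const_mul _ _).symm
    · exact fun t _ => (hi t).const_mul _
  rw [e1]
  apply intervalIntegral.integral_nonneg_of_ae_restrict hR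
  rw [Filter.EventuallyLE, ae_restrict_iff' measurableSet_Icc]
  have e2 : ∀ᵐ r ∂(volume : Measure ℝ), r ∉ S :=
    measure_eq_zero_iff_ae_notMem.1 (hS.measure_zero volume)
  filter_upwards [e2] with r hr hrI
  have e3 : ∑ t, cf t * (h r * k t r) = h r * ∑ t, cf t * k t r := by
    rw [Finset.mul_sum]
    exact Finset.sum_congr rfl fun t _ => by ring
  rw [e3]
  exact mul_nonneg (hh r hrI) (hk r hr)

variable {ι : Type} [Fintype ι] [DecidableEq ι]

omit [DecidableEq ι] in
theorem lev3 (x : ι → ℝ) {N : Matrix ι ι ℂ} (hN : N.PosSemidef) (i : ι) :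
    0 ≤ (∑ j, ∑ k, N i j * N j k * N k i * (if x i = x j ∧ x j = x k then (1 : ℂ) else 0)).re := by
  have h := hN.re_dotProduct_nonneg (fun j => if x j = x i then N j i else 0)
  rw [RCLike.re_to_complex] at h
  refine h.trans_eq (congrArg Complex.re ?_)
  simp only [dotProduct, mulVec, Finset.mul_sum]
  refine Finset.sum_congr rfl fun j _ => Finset.sum_congr rfl fun k _ => ?_
  have hs : star (N j i) = N i j := hN.1.apply i j
  simp only [Pi.star_apply]
  by_cases h1 : x j = x i
  · by_cases h2 : x k = x i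
    · have h3 : x i = x j ∧ x j = x k := ⟨h1.symm, h1.trans h2.symm⟩
      rw [if_pos h1, if_pos h2, if_pos h3, hs]
      ring
    · have h3 : ¬ (x i = x j ∧ x j = x k) := fun h4 => h2 (h4.1.trans h4.2).symm
      rw [if_neg h2, if_neg h3]
      ring
  · have h3 : ¬ (x i = x j ∧ x j = x k) := fun h4 => h1 h4.1.symm
    rw [if_neg h1, if_neg h3, star_zero]
    ring

omit [DecidableEq ι] in
theorem lev4 (x : ι → ℝ) {N : Matrix ι ι ℂ} (hN : N.IsHermitian) (i : ι) :
    0 ≤ (∑ j, ∑ k, ∑ l, N i j * N j k * N k l * N l i *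
      (if x i = x j ∧ x j = x k ∧ x k = x l then (1 : ℂ) else 0)).re := by
  have e : ∑ j, ∑ k, ∑ l, N i j * N j k * N k l * N l i *
      (if x i = x j ∧ x j = x k ∧ x k = x l then (1 : ℂ) else 0) =
      ∑ k, (if x k = x i then (1 : ℂ) else 0) *
        (star (∑ l, N k l * N l i * (if x l = x i then (1 : ℂ) else 0)) *
          ∑ l, N k l * N l i * (if x l = x i then (1 : ℂ) else 0)) := by
    rw [Finset.sum_comm]
    refine Finset.sum_congr rfl fun k _ => ?_
    rw [star_sum, Finset.sum_mul_sum, Finset.mul_sum]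
    refine Finset.sum_congr rfl fun j _ => ?_
    rw [Finset.mul_sum]
    refine Finset.sum_congr rfl fun l _ => ?_
    have h1 : star (N k j) = N j k := hN.apply j k
    have h2 : star (N j i) = N i j := hN.apply i j
    rw [star_mul', star_mul', h1, h2]
    by_cases a : x k = x i
    · by_cases b : x j = x i
      · by_cases c : x l = x i
        · rw [if_pos a, if_pos b, if_pos c, if_pos ⟨b.symm, b.trans a.symm, a.trans c.symm⟩, star_one]
          ring
        · rw [if_neg c, if_neg (fun h => c (h.1.trans (h.2.1.trans h.2.2)).symm)]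
          ring
      · rw [if_neg b, if_neg (fun h => b h.1.symm), star_zero]
        ring
    · rw [if_neg a, if_neg (fun h => a (h.1.trans h.2.1).symm)]
      ring
  rw [e, Complex.re_sum]
  refine Finset.sum_nonneg fun k _ => ?_
  have h3 : 0 ≤ star (∑ l, N k l * N l i * (if x l = x i then (1 : ℂ) else 0)) *
      ∑ l, N k l * N l i * (if x l = x i then (1 : ℂ) else 0) := star_mul_self_nonneg _
  by_cases a : x k = x i
  · rw [if_pos a, one_mul]
    exact (Complex.le_def.1 h3).1
  · rw [if_neg a, zero_mul, Complex.zero_re]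

omit [DecidableEq ι] in
/-- T-2c, order three: `0 ≤ Re ∑ N N N dd2 g` -/
theorem dd2_trace_nonneg {N : Matrix ι ι ℂ} (hN : N.PosSemidef)
    (H3 : ∀ y : ι → ℝ, (∀ i, y i ≠ 0) →
      0 ≤ (∑ i, ∑ j, ∑ k, N i j * N j k * N k i * ((q3 (y i) (y j) (y k) : ℝ) : ℂ)).re)
    {R : ℝ} {x : ι → ℝ} (hx : ∀ i, |x i| ≤ R) (g : ℝ[X])
    (hg : ∀ r, |r| ≤ R → 0 ≤ (derivative (derivative g)).eval r) :
    0 ≤ (∑ i, ∑ j, ∑ k, N i j * N j k * N k i * ((dd2 g (x i) (x j) (x k) : ℝ) : ℂ)).re := by
  rcases isEmpty_or_nonempty ι with hι | ⟨⟨i₀⟩⟩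
  · simp
  have hR : -R ≤ R := by linarith [(abs_nonneg (x i₀)).trans (hx i₀)]
  have hI : ∀ i, x i ∈ Set.Icc (-R) R := fun i => abs_le.1 (hx i)
  have e1 : ∀ f : ι → ι → ι → ℝ,
      (∑ i, ∑ j, ∑ k, N i j * N j k * N k i * ((f i j k : ℝ) : ℂ)).re =
        ∑ t : ι × ι × ι, (N t.1 t.2.1 * N t.2.1 t.2.2 * N t.2.2 t.1).re * f t.1 t.2.1 t.2.2 := by
    intro f
    simp only [Complex.re_sum, Complex.re_mul_ofReal, Fintype.sum_prod_type]
  rw [e1]
  have e2 : ∀ t : ι × ι × ι, dd2 g (x t.1) (x t.2.1) (x t.2.2) = (∫ r in (-R)..R,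
      (derivative (derivative g)).eval r * q3 (x t.1 - r) (x t.2.1 - r) (x t.2.2 - r)) +
        if x t.1 = x t.2.1 ∧ x t.2.1 = x t.2.2 then
          (derivative (derivative g)).eval (x t.1) / 2 else 0 :=
    fun t => (peano3 g (hI _) (hI _) (hI _)).2
  simp only [e2, mul_add, Finset.sum_add_distrib]
  refine add_nonneg ?_ ?_
  · refine fin_int hR (Set.range x) (Set.finite_range x) _ _ (fun r hr => hg r (abs_le.2 hr)) _
      (fun t => (peano3 g (hI _) (hI _) (hI _)).1) fun r hr => ?_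
    rw [← e1 fun i j k => q3 (x i - r) (x j - r) (x k - r)]
    exact H3 (fun i => x i - r) fun i h => hr ⟨i, by linarith [h]⟩
  · rw [← e1 fun i j k => if x i = x j ∧ x j = x k then
          (derivative (derivative g)).eval (x i) / 2 else 0, Complex.re_sum]
    refine Finset.sum_nonneg fun i _ => ?_
    have e3 : ∑ j, ∑ k, N i j * N j k * N k i * (((if x i = x j ∧ x j = x k then
          (derivative (derivative g)).eval (x i) / 2 else 0 : ℝ)) : ℂ) =
        (∑ j, ∑ k, N i j * N j k * N k i * (if x i = x j ∧ x j = x k then (1 : ℂ) else 0)) *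
          (((derivative (derivative g)).eval (x i) / 2 : ℝ) : ℂ) := by
      simp only [Finset.sum_mul]
      refine Finset.sum_congr rfl fun j _ => Finset.sum_congr rfl fun k _ => ?_
      split_ifs
      · ring
      · simp
    rw [e3, Complex.re_mul_ofReal]
    exact mul_nonneg (lev3 x hN i) (by linarith [hg _ (hx i)])

omit [DecidableEq ι] in
/-- T-2c, order four: `0 ≤ Re ∑ N N N N dd3 g` -/
theorem dd3_trace_nonneg {N : Matrix ι ι ℂ} (hN : N.IsHermitian)
    (H4 : ∀ y : ι → ℝ, (∀ i, y i ≠ 0) →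
      0 ≤ (∑ i, ∑ j, ∑ k, ∑ l, N i j * N j k * N k l * N l i *
        ((q4 (y i) (y j) (y k) (y l) : ℝ) : ℂ)).re)
    {R : ℝ} {x : ι → ℝ} (hx : ∀ i, |x i| ≤ R) (g : ℝ[X])
    (hg : ∀ r, |r| ≤ R → 0 ≤ (derivative (derivative (derivative g))).eval r) :
    0 ≤ (∑ i, ∑ j, ∑ k, ∑ l, N i j * N j k * N k l * N l i *
      ((dd3 g (x i) (x j) (x k) (x l) : ℝ) : ℂ)).re := by
  rcases isEmpty_or_nonempty ι with hι | ⟨⟨i₀⟩⟩
  · simp
  have hR : -R ≤ R := by linarith [(abs_nonneg (x i₀)).trans (hx i₀)]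
  have hI : ∀ i, x i ∈ Set.Icc (-R) R := fun i => abs_le.1 (hx i)
  have e1 : ∀ f : ι → ι → ι → ι → ℝ,
      (∑ i, ∑ j, ∑ k, ∑ l, N i j * N j k * N k l * N l i * ((f i j k l : ℝ) : ℂ)).re =
        ∑ t : ι × ι × ι × ι, (N t.1 t.2.1 * N t.2.1 t.2.2.1 * N t.2.2.1 t.2.2.2 * N t.2.2.2 t.1).re *
          f t.1 t.2.1 t.2.2.1 t.2.2.2 := by
    intro f
    simp only [Complex.re_sum, Complex.re_mul_ofReal, Fintype.sum_prod_type]
  rw [e1]
  have e2 : ∀ t : ι × ι × ι × ι, dd3 g (x t.1) (x t.2.1) (x t.2.2.1) (x t.2.2.2) =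
      (1 / 2) * (∫ r in (-R)..R, (derivative (derivative (derivative g))).eval r *
        q4 (x t.1 - r) (x t.2.1 - r) (x t.2.2.1 - r) (x t.2.2.2 - r)) +
        if x t.1 = x t.2.1 ∧ x t.2.1 = x t.2.2.1 ∧ x t.2.2.1 = x t.2.2.2 then
          (derivative (derivative (derivative g))).eval (x t.1) / 6 else 0 :=
    fun t => (peano4 g (hI _) (hI _) (hI _) (hI _)).2
  simp only [e2, mul_add, Finset.sum_add_distrib]
  refine add_nonneg ?_ ?_
  · have e4 : ∀ (a b : ℝ), a * (1 / 2 * b) = (1 / 2) * (a * b) := fun a b => by ring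
    simp only [e4, ← Finset.mul_sum]
    refine mul_nonneg (by norm_num) ?_
    refine fin_int hR (Set.range x) (Set.finite_range x) _ _ (fun r hr => hg r (abs_le.2 hr)) _
      (fun t => (peano4 g (hI _) (hI _) (hI _) (hI _)).1) fun r hr => ?_
    rw [← e1 fun i j k l => q4 (x i - r) (x j - r) (x k - r) (x l - r)]
    exact H4 (fun i => x i - r) fun i h => hr ⟨i, by linarith [h]⟩
  · rw [← e1 fun i j k l => if x i = x j ∧ x j = x k ∧ x k = x l then
          (derivative (derivative (derivative g))).eval (x i) / 6 else 0, Complex.re_sum]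
    refine Finset.sum_nonneg fun i _ => ?_
    have e3 : ∑ j, ∑ k, ∑ l, N i j * N j k * N k l * N l i *
        (((if x i = x j ∧ x j = x k ∧ x k = x l then
          (derivative (derivative (derivative g))).eval (x i) / 6 else 0 : ℝ)) : ℂ) =
        (∑ j, ∑ k, ∑ l, N i j * N j k * N k l * N l i *
          (if x i = x j ∧ x j = x k ∧ x k = x l then (1 : ℂ) else 0)) *
          (((derivative (derivative (derivative g))).eval (x i) / 6 : ℝ) : ℂ) := by
      simp only [Finset.sum_mul]
      refine Finset.sum_congr rfl fun j _ => Finset.sum_congr rfl fun k _ =>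
        Finset.sum_congr rfl fun l _ => ?_
      split_ifs
      · ring
      · simp
    rw [e3, Complex.re_mul_ofReal]
    exact mul_nonneg (lev4 x hN i) (by linarith [hg _ (hx i)])

/-! ## Bounds -/

theorem dd3_nonneg (g : ℝ[X]) {R a b c d : ℝ} (ha : |a| ≤ R) (hb : |b| ≤ R) (hc : |c| ≤ R)
    (hd : |d| ≤ R) (hg : ∀ r, |r| ≤ R → 0 ≤ (derivative (derivative (derivative g))).eval r) :
    0 ≤ dd3 g a b c d := by
  have hR : -R ≤ R := by linarith [(abs_nonneg a).trans ha]
  rw [(peano4 g (abs_le.1 ha) (abs_le.1 hb) (abs_le.1 hc) (abs_le.1 hd)).2]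
  refine add_nonneg (mul_nonneg (by norm_num) ?_) ?_
  · exact intervalIntegral.integral_nonneg hR fun r hr =>
      mul_nonneg (hg r (abs_le.2 hr)) (q4_nonneg _ _ _ _)
  · split_ifs
    · linarith [hg a ha]
    · exact le_rfl

theorem dd3_add (g h : ℝ[X]) (a b c d : ℝ) :
    dd3 (g + h) a b c d = dd3 g a b c d + dd3 h a b c d := by
  unfold dd3
  rw [Polynomial.sum_add_index]
  · intro n; simp
  · intro n x y; ring

theorem dd3_neg (g : ℝ[X]) (a b c d : ℝ) : dd3 (-g) a b c d = - dd3 g a b c d := by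
  have h := dd3_add g (-g) a b c d
  rw [add_neg_cancel] at h
  have h0 : dd3 0 a b c d = 0 := by simp [dd3]
  linarith

theorem dd3_cube (M a b c d : ℝ) : dd3 (monomial 3 M) a b c d = M := by
  unfold dd3
  rw [Polynomial.sum_monomial_index _ _ (by simp)]
  simp [h3, h2, h1]

/-- `|dd3 g| ≤ M / 6` when `|g'''| ≤ M` -/
theorem abs_dd3_le (g : ℝ[X]) {R M a b c d : ℝ} (ha : |a| ≤ R) (hb : |b| ≤ R) (hc : |c| ≤ R)
    (hd : |d| ≤ R)
    (hg : ∀ r, |r| ≤ R → |(derivative (derivative (derivative g))).eval r| ≤ M) :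
    |dd3 g a b c d| ≤ M / 6 := by
  have e : ∀ r, (derivative (derivative (derivative (monomial 3 (M / 6) : ℝ[X])))).eval r = M := by
    intro r
    rw [derivative_monomial, derivative_monomial, derivative_monomial, eval_monomial]
    norm_num
    ring
  rw [abs_le]
  constructor
  · have h := dd3_nonneg (monomial 3 (M / 6) + g) ha hb hc hd fun r hr => by
      rw [derivative_add, derivative_add, derivative_add, eval_add, e]
      linarith [(abs_le.1 (hg r hr)).1]
    rw [dd3_add, dd3_cube] at h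
    linarith
  · have h := dd3_nonneg (monomial 3 (M / 6) + -g) ha hb hc hd fun r hr => by
      rw [derivative_add, derivative_add, derivative_add, eval_add, e, derivative_neg,
        derivative_neg, derivative_neg, eval_neg]
      linarith [(abs_le.1 (hg r hr)).2]
    rw [dd3_add, dd3_cube, dd3_neg] at h
    linarith

end Pool.Agent.Lib_helper42.T56
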